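import Mathlib

/-!
# Project NV: definitions (two-row windows, Nivat's conjecture for convex windows)

A configuration is `c : ℤ → ℤ → A`, written `c i j` with column `i` and row `j`.
-/

namespace Pool.Agent.Helper28.NV

open Set

/-- Pairs of words: an edge covers the columns `t-μ..t` of row `j` and `t-ν..t` of row `j+1`. -/
abbrev Edge (A : Type) (μ ν : ℕ) := (Fin (μ + 1) → A) × (Fin (ν + 1) → A)

/-- A vertex covers the columns `t-μ..t-1` of row `j` and `t-ν..t-1` of row `j+1`. -/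
abbrev Vert (A : Type) (μ ν : ℕ) := (Fin μ → A) × (Fin ν → A)

/-- Source of an edge: drop the newest letters (index `0`). -/
def src {A : Type} {μ ν : ℕ} (e : Edge A μ ν) : Vert A μ ν :=
  (fun l => e.1 l.succ, fun l => e.2 l.succ)

/-- Target of an edge: drop the oldest letters (last index). -/
def tgt {A : Type} {μ ν : ℕ} (e : Edge A μ ν) : Vert A μ ν :=
  (fun l => e.1 l.castSucc, fun l => e.2 l.castSucc)

/-- The edge of `w` at column `t`, rows `j`, `j+1`. -/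
def ed {A : Type} (μ ν : ℕ) (w : ℤ → ℤ → A) (t j : ℤ) : Edge A μ ν :=
  (fun l => w (t - (l : ℕ)) j, fun l => w (t - (l : ℕ)) (j + 1))

/-- The vertex of `w` at column `t`, rows `j`, `j+1`. -/
def vt {A : Type} (μ ν : ℕ) (w : ℤ → ℤ → A) (t j : ℤ) : Vert A μ ν :=
  (fun l => w (t - 1 - (l : ℕ)) j, fun l => w (t - 1 - (l : ℕ)) (j + 1))

/-- All edges of `w` lie in `E`. -/
def On {A : Type} {μ ν : ℕ} (E : Set (Edge A μ ν)) (w : ℤ → ℤ → A) : Prop :=
  ∀ t j, ed μ ν w t j ∈ E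

/-- Bottom words with at least two edges over them. -/
def Ust {A : Type} {μ ν : ℕ} (E : Set (Edge A μ ν)) : Set (Fin (μ + 1) → A) :=
  {u | ∃ e ∈ E, ∃ f ∈ E, e.1 = u ∧ f.1 = u ∧ e ≠ f}

/-- The properties of the edge set of a minimal two-row window of low complexity. -/
structure Sys {A : Type} (μ ν : ℕ) (E : Set (Edge A μ ν)) : Prop where
  h1 : ∀ e ∈ E, ∀ f ∈ E, src e = src f → e.1 0 = f.1 0 → e = f
  h2 : ∀ e ∈ E, ∀ f ∈ E, src e = src f → e.2 0 = f.2 0 → e = f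
  h3 : ∀ e ∈ E, ∀ f ∈ E, tgt e = tgt f → e.1 (Fin.last μ) = f.1 (Fin.last μ) → e = f
  h4 : ∀ e ∈ E, ∀ f ∈ E, tgt e = tgt f → e.2 (Fin.last ν) = f.2 (Fin.last ν) → e = f
  h5 : ∀ e ∈ E, ∀ e' ∈ E, ∀ f ∈ E, ∀ f' ∈ E, src e = src e' → e ≠ e' → src f = src f' → f ≠ f' →
    (e = f ∧ e' = f') ∨ (e = f' ∧ e' = f)
  h7 : (Ust E).ncard ≤ ν

/-- `w` is locally a piece of `c` (it lies in the orbit closure of `c`). -/
def Comp {A : Type} (c w : ℤ → ℤ → A) : Prop :=
  ∀ R : ℤ, ∃ a b : ℤ, ∀ i j, |i| ≤ R → |j| ≤ R → w i j = c (a + i) (b + j)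

/-- `c` has a horizontal period. -/
def HPer {A : Type} (c : ℤ → ℤ → A) : Prop := ∃ L : ℤ, 0 < L ∧ ∀ i j, c (i + L) j = c i j

/-- `c` has a nonzero period vector. -/
def Per {A : Type} (c : ℤ → ℤ → A) : Prop :=
  ∃ p q : ℤ, (p ≠ 0 ∨ q ≠ 0) ∧ ∀ i j, c (i + p) (j + q) = c i j

/-- Left eventually periodic. -/
def LEP {A : Type} (x : ℤ → A) : Prop := ∃ δ : ℤ, 0 < δ ∧ ∃ b : ℤ, ∀ i ≤ b, x (i - δ) = x i

/-- The window of length `μ+1` of `x` ending at `t`. -/
def win {A : Type} (μ : ℕ) (x : ℤ → A) (t : ℤ) : Fin (μ + 1) → A := fun l => x (t - (l : ℕ))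

/-- `w` and `w'` agree left of column `0` and differ everywhere in column `0`. -/
def HalfPair {A : Type} (w w' : ℤ → ℤ → A) : Prop :=
  (∀ i j, i < 0 → w i j = w' i j) ∧ ∀ j, w 0 j ≠ w' 0 j

/-- The pair of words of lengths `a`, `b` in rows `x.2`, `x.2+1`, the top one shifted by `s`. -/
def pat {A : Type} (c : ℤ → ℤ → A) (s : ℤ) (a b : ℕ) (x : ℤ × ℤ) : (Fin a → A) × (Fin b → A) :=
  (fun l => c (x.1 - 1 - (l : ℕ)) x.2, fun l => c (x.1 + s - 1 - (l : ℕ)) (x.2 + 1))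

/-- Number of patterns. -/
noncomputable def N {A : Type} (c : ℤ → ℤ → A) (s : ℤ) (a b : ℕ) : ℕ := (range (pat c s a b)).ncard

section API

variable {A : Type} {μ ν : ℕ} {w w' : ℤ → ℤ → A} {t t' j j' : ℤ}

theorem src_ed : src (ed μ ν w t j) = vt μ ν w t j := by
  simp only [src, ed, vt]
  ext l
  · show w (t - ((l.succ : Fin (μ + 1)) : ℕ)) j = w (t - 1 - (l : ℕ)) j
    congr 1; simp; ring
  · show w (t - ((l.succ : Fin (ν + 1)) : ℕ)) (j + 1) = w (t - 1 - (l : ℕ)) (j + 1)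
    congr 1; simp; ring

theorem tgt_ed : tgt (ed μ ν w t j) = vt μ ν w (t + 1) j := by
  simp only [tgt, ed, vt]
  ext l
  · show w (t - ((l.castSucc : Fin (μ + 1)) : ℕ)) j = w (t + 1 - 1 - (l : ℕ)) j
    congr 1; simp
  · show w (t - ((l.castSucc : Fin (ν + 1)) : ℕ)) (j + 1) = w (t + 1 - 1 - (l : ℕ)) (j + 1)
    congr 1; simp

theorem vt_eq_iff : vt μ ν w t j = vt μ ν w' t' j' ↔
    (∀ l : ℕ, l < μ → w (t - 1 - l) j = w' (t' - 1 - l) j') ∧
    (∀ l : ℕ, l < ν → w (t - 1 - l) (j + 1) = w' (t' - 1 - l) (j' + 1)) := by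
  simp only [vt, Prod.mk.injEq, funext_iff]
  constructor
  · rintro ⟨h1, h2⟩
    exact ⟨fun l hl => h1 ⟨l, hl⟩, fun l hl => h2 ⟨l, hl⟩⟩
  · rintro ⟨h1, h2⟩
    exact ⟨fun l => h1 l l.2, fun l => h2 l l.2⟩

theorem ed_eq_iff : ed μ ν w t j = ed μ ν w' t' j' ↔
    (∀ l : ℕ, l ≤ μ → w (t - l) j = w' (t' - l) j') ∧
    (∀ l : ℕ, l ≤ ν → w (t - l) (j + 1) = w' (t' - l) (j' + 1)) := by
  simp only [ed, Prod.mk.injEq, funext_iff]
  constructor
  · rintro ⟨h1, h2⟩
    exact ⟨fun l hl => h1 ⟨l, by omega⟩, fun l hl => h2 ⟨l, by omega⟩⟩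
  · rintro ⟨h1, h2⟩
    exact ⟨fun l => h1 l (by omega), fun l => h2 l (by omega)⟩

/-- Equal edges: equal source, equal target, equal new letters, equal old letters. -/
theorem ed_src (h : ed μ ν w t j = ed μ ν w' t' j') : vt μ ν w t j = vt μ ν w' t' j' := by
  rw [← src_ed, ← src_ed, h]

theorem ed_tgt (h : ed μ ν w t j = ed μ ν w' t' j') :
    vt μ ν w (t + 1) j = vt μ ν w' (t' + 1) j' := by
  rw [← tgt_ed, ← tgt_ed, h]

theorem ed_bot (h : ed μ ν w t j = ed μ ν w' t' j') : w t j = w' t' j' := by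
  have := (ed_eq_iff.1 h).1 0 (Nat.zero_le _)
  simpa using this

theorem ed_top (h : ed μ ν w t j = ed μ ν w' t' j') : w t (j + 1) = w' t' (j' + 1) := by
  have := (ed_eq_iff.1 h).2 0 (Nat.zero_le _)
  simpa using this

variable {E : Set (Edge A μ ν)}

/-- H1: same source, same new bottom letter. -/
theorem Sys.f1 (hS : Sys μ ν E) (hw : On E w) (hw' : On E w')
    (hv : vt μ ν w t j = vt μ ν w' t' j') (hl : w t j = w' t' j') :
    ed μ ν w t j = ed μ ν w' t' j' :=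
  hS.h1 _ (hw t j) _ (hw' t' j') (by rw [src_ed, src_ed, hv]) (by simpa [ed] using hl)

/-- H2: same source, same new top letter. -/
theorem Sys.f2 (hS : Sys μ ν E) (hw : On E w) (hw' : On E w')
    (hv : vt μ ν w t j = vt μ ν w' t' j') (hl : w t (j + 1) = w' t' (j' + 1)) :
    ed μ ν w t j = ed μ ν w' t' j' :=
  hS.h2 _ (hw t j) _ (hw' t' j') (by rw [src_ed, src_ed, hv]) (by simpa [ed] using hl)

/-- H3: same target, same old bottom letter. -/
theorem Sys.f3 (hS : Sys μ ν E) (hw : On E w) (hw' : On E w')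
    (hv : vt μ ν w (t + 1) j = vt μ ν w' (t' + 1) j') (hl : w (t - μ) j = w' (t' - μ) j') :
    ed μ ν w t j = ed μ ν w' t' j' :=
  hS.h3 _ (hw t j) _ (hw' t' j') (by rw [tgt_ed, tgt_ed, hv]) (by simpa [ed] using hl)

/-- H4: same target, same old top letter. -/
theorem Sys.f4 (hS : Sys μ ν E) (hw : On E w) (hw' : On E w')
    (hv : vt μ ν w (t + 1) j = vt μ ν w' (t' + 1) j')
    (hl : w (t - ν) (j + 1) = w' (t' - ν) (j' + 1)) :
    ed μ ν w t j = ed μ ν w' t' j' :=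
  hS.h4 _ (hw t j) _ (hw' t' j') (by rw [tgt_ed, tgt_ed, hv]) (by simpa [ed] using hl)

/-- H5: the unordered pair of distinct edges with the same source is unique. -/
theorem Sys.f5 (hS : Sys μ ν E) (hw : On E w) (hw' : On E w')
    {e f : Edge A μ ν} (he : e ∈ E) (hf : f ∈ E) (hef : src e = src f) (hne : e ≠ f)
    (hv : vt μ ν w t j = vt μ ν w' t' j') (hn : ed μ ν w t j ≠ ed μ ν w' t' j') :
    (ed μ ν w t j = e ∧ ed μ ν w' t' j' = f) ∨ (ed μ ν w t j = f ∧ ed μ ν w' t' j' = e) :=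
  hS.h5 _ (hw t j) _ (hw' t' j') _ he _ hf (by rw [src_ed, src_ed, hv]) hn hef hne

/-- Compatible configurations have only edges of `c`. -/
theorem Comp.on {c : ℤ → ℤ → A} (h : Comp c w) (hc : On E c) : On E w := by
  intro t j
  obtain ⟨a, b, hab⟩ := h (|t| + |j| + μ + ν + 1)
  have : ed μ ν w t j = ed μ ν c (a + t) (b + j) := by
    rw [ed_eq_iff]
    have h1 : |t - 0| ≤ |t| := by simp
    constructor
    · intro l hl
      rw [hab (t - l) j ?_ ?_]
      · congr 1; ring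
      · have := abs_sub t (l : ℤ)
        have h3 : |(l : ℤ)| = l := abs_of_nonneg (by positivity)
        have h4 := abs_nonneg j
        have h5 : (l : ℤ) ≤ μ := by exact_mod_cast hl
        omega
      · have h4 := abs_nonneg t
        omega
    · intro l hl
      rw [hab (t - l) (j + 1) ?_ ?_]
      · congr 1 <;> ring
      · have := abs_sub t (l : ℤ)
        have h3 : |(l : ℤ)| = l := abs_of_nonneg (by positivity)
        have h4 := abs_nonneg j
        have h5 : (l : ℤ) ≤ ν := by exact_mod_cast hl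
        omega
      · have := abs_add_le j 1
        have h4 := abs_nonneg t
        simp only [abs_one] at this
        omega
  rw [this]
  exact hc _ _

theorem Comp.refl (c : ℤ → ℤ → A) : Comp c c := fun R => ⟨0, 0, by intros; simp⟩

theorem Comp.shift {c : ℤ → ℤ → A} (h : Comp c w) (p q : ℤ) :
    Comp c (fun i j => w (i + p) (j + q)) := by
  intro R
  obtain ⟨a, b, hab⟩ := h (R + |p| + |q|)
  refine ⟨a + p, b + q, fun i j hi hj => ?_⟩
  show w (i + p) (j + q) = _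
  rw [hab (i + p) (j + q) ?_ ?_]
  · congr 1 <;> ring
  · have := abs_add_le i p
    have := abs_nonneg q
    omega
  · have := abs_add_le j q
    have := abs_nonneg p
    omega

/-- A limit of compatible configurations is compatible. -/
theorem Comp.lim {c : ℤ → ℤ → A} {z : ℕ → ℤ → ℤ → A} (hz : ∀ K, Comp c (z K))
    (hw : ∀ R : ℤ, ∃ K, ∀ i j, |i| ≤ R → |j| ≤ R → w i j = z K i j) : Comp c w := by
  intro R
  obtain ⟨K, hK⟩ := hw R
  obtain ⟨a, b, hab⟩ := hz K R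
  exact ⟨a, b, fun i j hi hj => by rw [hK i j hi hj, hab i j hi hj]⟩

end API

end Pool.Agent.Helper28.NV
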