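import Mathlib
import Pool.Agent.Helper28.NV.Defs

/-!
# Project NV: goals (Nivat's conjecture for convex windows in two adjacent lattice lines)

MP_06b25c_co, Q1 for all windows `D` contained in two adjacent lattice lines.
Conventions: `w i j`, column `i`, row `j`; an edge `ed μ ν w t j` consists of the columns
`t-μ..t` of row `j` (component `.1`, index `0` = newest letter `w t j`) and the columns
`t-ν..t` of row `j+1` (component `.2`).  `vt μ ν w t j` is its source, `vt μ ν w (t+1) j` its
target.  In Defs: `Sys.f1 .. f5` (the five properties in terms of configurations), `ed_eq_iff`,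
`vt_eq_iff`, `ed_src`, `ed_tgt`, `ed_bot`, `ed_top`, `Comp.on`, `Comp.shift`, `Comp.lim`.

In every proof below H1 etc. are the fields of `Sys`: H1 source + newest bottom letter, H2 source
+ newest top letter, H3 target + oldest bottom letter, H4 target + oldest top letter determine an
edge of `E`; H5 at most one unordered pair of distinct edges with the same source; H7
`(Ust E).ncard ≤ ν`.
-/

namespace Pool.Agent.Helper28.NV

open Set

/-- **DET.** Deterministic sequences with finitely many states.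
Proof.  Let `n = Nat.card S`.  Fix `t`.  Among `v (t-n), ..., v t` two are equal (pigeonhole):
`v t1 = v t2`, `t-n ≤ t1 < t2 ≤ t`.  By determinism `v (t1+k) = v (t2+k)` for all `k ≥ 0`, so with
`d = t2 - t1 ∈ [1, n]`: `v (s + d) = v s` for all `s ≥ t1`, hence `v (t + m d) = v t` for all `m`;
`d` divides `n!`.  Second part: apply the first to `fun t => v (-t)` at `-(t + n!)`. -/
def G_DET : Prop := ∀ (S : Type) [Finite S] (v : ℤ → S),
  ((∀ t t', v t = v t' → v (t + 1) = v (t' + 1)) → ∀ t, v (t + ((Nat.card S).factorial : ℕ)) = v t) ∧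
  ((∀ t t', v t = v t' → v (t - 1) = v (t' - 1)) → ∀ t, v (t + ((Nat.card S).factorial : ℕ)) = v t)

/-- **LIM.** Compactness.
Proof.  Let `U = Filter.hyperfilter ℕ`.  `B` is finite, so for every `(i, j)` there is a unique
`w i j` with `∀ᶠ K in U, z K i j = w i j`.  Given `R`, `M`: finite intersection over the box and
`U ≤ atTop` (`Nat.hyperfilter_le_atTop`) give a `K ≥ M`. -/
def G_LIM : Prop := ∀ (B : Type) [Finite B] (z : ℕ → ℤ → ℤ → B), ∃ w : ℤ → ℤ → B,
  ∀ (R : ℤ) (M : ℕ), ∃ K, M ≤ K ∧ ∀ i j, |i| ≤ R → |j| ≤ R → w i j = z K i j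

/-- **CNT.** Counting fibres of a map on a finite set.
Proof.  (a) `Set.injOn_of_ncard_image_eq` (image has at most `E.ncard` elements).
(b) If the two unordered pairs differ, one can remove two elements of `E` without changing the
image: if `F e ≠ F f` remove `e'` and `f'`; if `F e = F f` then `e, e', f, f'` lie in one fibre and
at least three of them are distinct, remove two of these.  So `(F '' E).ncard ≤ E.ncard - 2`.
(c) Choose for each `y` in the image one preimage; the chosen ones are `(F '' E).ncard` many, and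
for each `y` with two preimages there is a further non-chosen one (injectively), so
`(F '' E).ncard + (bad set).ncard ≤ E.ncard`. -/
def G_CNT : Prop := ∀ (X Y : Type) (F : X → Y) (E : Set X), E.Finite →
  (E.ncard ≤ (F '' E).ncard → InjOn F E) ∧
  (E.ncard ≤ (F '' E).ncard + 1 → ∀ e ∈ E, ∀ e' ∈ E, ∀ f ∈ E, ∀ f' ∈ E,
    F e = F e' → e ≠ e' → F f = F f' → f ≠ f' → (e = f ∧ e' = f') ∨ (e = f' ∧ e' = f)) ∧
  (∀ k : ℕ, E.ncard ≤ (F '' E).ncard + k →
    {y | ∃ e ∈ E, ∃ f ∈ E, F e = y ∧ F f = y ∧ e ≠ f}.ncard ≤ k)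

/-- **EVP.** One-dimensional: few windows to the left give left eventual periodicity.
Proof.  For `ℓ ≤ μ+1` let `q ℓ` be the number of words `(fun l : Fin ℓ => x (t - l))`, `t < 0`.
`q 0 = 1`, `q (μ+1) ≤ U.ncard ≤ μ` (`U` is finite as `A` is), `q ℓ ≤ q (ℓ+1)` (restriction is
onto).  `μ+2` values between `1` and `μ` cannot increase strictly, so `q ℓ = q (ℓ+1)` for some
`ℓ ≤ μ`: for `t, t' < 0`, if the words of length `ℓ` at `t`, `t'` are equal, so are the words of
length `ℓ+1`, in particular the words of length `ℓ` at `t-1`, `t'-1`, and `x t = x t'`.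
The sequence `k ↦` (word of length `ℓ` at `-1-k`) is deterministic with finitely many values, so
two values are equal at `k1 < k2` and it has period `δ = k2 - k1` from `k1` on; the letter
`x (-1-k)` is a function of the word of length `ℓ` at `-1-k`. -/
def G_EVP : Prop := ∀ (A : Type) [Finite A] (μ : ℕ) (U : Set (Fin (μ + 1) → A)), U.ncard ≤ μ →
  ∀ x : ℤ → A, (∀ t < 0, win μ x t ∈ U) → LEP x

/-- **U1.** One-dimensional: few windows give a period, uniformly.
Proof.  As EVP, with all `t : ℤ`: some `ℓ ≤ μ` such that the word of length `ℓ` at `t` (columns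
`t-ℓ+1..t`) determines the word of length `ℓ+1` (columns `t-ℓ..t`), so the word of length `ℓ` at
`t-1`, and `x t`.  By DET (second part) the word of length `ℓ` has period
`(Nat.card (Fin ℓ → A)).factorial`, so `x` too.  Take `L` = the product of these numbers over
`ℓ ≤ μ` (they are positive), a multiple of each. -/
def G_U1 : Prop := ∀ (A : Type) [Finite A] (μ : ℕ), ∃ L : ℕ, 0 < L ∧
  ∀ U : Set (Fin (μ + 1) → A), U.ncard ≤ μ → ∀ x : ℤ → A, (∀ t, win μ x t ∈ U) →
    ∀ i, x (i + L) = x i

/-- **FSL.** Left eventual periodicity passes to the adjacent rows.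
Proof.  Row `j`: `w (i-δ) j = w i j` for `i ≤ b`.  State at `t ≤ b`: `(vt μ ν w t j, t mod δ)`
(finitely many).  If the states at `t, t' ≤ b` are equal then `w (t-1-μ) j = w (t'-1-μ) j`
(difference a multiple of `δ`, all columns `≤ b`), so by H3 (`Sys.f3` at `t-1`) the edges
`ed w (t-1) j`, `ed w (t'-1) j` are equal, so the states at `t-1`, `t'-1` are equal.  Hence the
sequence of states at `b, b-1, b-2, ...` is deterministic and eventually periodic, and
`w (t-1) (j+1)` is a function of the state at `t` (it is a letter of the edge).  Downwards the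
same with the edges `ed w t (j-1)` (top row `j`) and H4. -/
def G_FSL : Prop := ∀ (A : Type) [Finite A] (μ ν : ℕ) (E : Set (Edge A μ ν)), Sys μ ν E →
  ∀ w : ℤ → ℤ → A, On E w → ∀ j, LEP (fun i => w i j) →
    LEP (fun i => w i (j + 1)) ∧ LEP (fun i => w i (j - 1))

/-- **U2.** Periodicity of row `j+1` passes to row `j`, uniformly.
Proof.  State at `t : ℤ`: `(vt μ ν w t j, (t : ZMod L))`.  If the states at `t`, `t'` are equal
then `w (t-1-ν) (j+1) = w (t'-1-ν) (j+1)`, so by H4 the edges at `t-1`, `t'-1` are equal.  So the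
states are deterministic backwards and DET (second part) gives the period
`L' = (Nat.card (Vert A μ ν × ZMod L)).factorial` of the state, and `w (t-1) j` is a function of
the state at `t`. -/
def G_U2 : Prop := ∀ (A : Type) [Finite A] (μ ν : ℕ) (L : ℕ), 0 < L → ∃ L' : ℕ, 0 < L' ∧
  ∀ (E : Set (Edge A μ ν)), Sys μ ν E → ∀ w : ℤ → ℤ → A, On E w → ∀ j,
    (∀ i, w (i + L) (j + 1) = w i (j + 1)) → ∀ i, w (i + L') j = w i j

/-- **N1.** A configuration without horizontal period has a one-sided non-determinism.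
Proof.  Case 1: for every `n : ℕ` there are `t, j, t', j'` with
`c (t-l) j = c (t'-l) j'` and `c (t-l) (j+1) = c (t'-l) (j'+1)` for `1 ≤ l ≤ n`, but
`c t j ≠ c t' j'`.  For `n ≥ μ, ν` the vertices at `(t,j)`, `(t',j')` agree, so by H2 also
`c t (j+1) ≠ c t' (j'+1)`.  Let `z_n i k = (c (t+i) (j+k), c (t'+i) (j'+k))` and take a limit with
LIM (alphabet `A × A`); both components are compatible with `c` (`Comp.shift`, `Comp.lim`).
Case 2: some `n` has no such example; then it has none for every larger `n`, let `n ≥ μ, ν, 1`.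
By H1 agreement of the `n` previous columns gives also `c t (j+1) = c t' (j'+1)`.  For each row `j`
the sequence `t ↦ (fun l : Fin n => (c (t-1-l) j, c (t-1-l) (j+1)))` is deterministic, so by DET
it has the period `(Nat.card (Fin n → A × A)).factorial`, and `HPer c`. -/
def G_N1 : Prop := ∀ (A : Type) [Finite A] (μ ν : ℕ) (E : Set (Edge A μ ν)), Sys μ ν E →
  ∀ c : ℤ → ℤ → A, On E c → ¬ HPer c → ∃ z z' : ℤ → ℤ → A, Comp c z ∧ Comp c z' ∧
    (∀ i < 0, z i 0 = z' i 0) ∧ (∀ i < 0, z i 1 = z' i 1) ∧ z 0 0 ≠ z' 0 0 ∧ z 0 1 ≠ z' 0 1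

/-- **UP.** Agreement passes to the next row, unless all windows on the left lie in `Ust E`.
Proof.  The window of row `k` at the given `t < 0` is the same for `z` and `z'` and is not in
`Ust E`, so `ed z t k = ed z' t k` (both lie over it).  Forwards: if `ed z t' k = ed z' t' k` and
`t'+1 < 0` then H1 (targets, letter of row `k`) gives the same at `t'+1`.  Backwards: sources and
the letters `z (t'-1-μ) k = z' (t'-1-μ) k` and H3.  So all edges at `t' < 0` agree and the rows
`k+1` agree on `i < 0`.  Then `vt z 0 k = vt z' 0 k`, and if `z 0 (k+1) = z' 0 (k+1)` then H2 gives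
`z 0 k = z' 0 k`, a contradiction. -/
def G_UP : Prop := ∀ (A : Type) (μ ν : ℕ) (E : Set (Edge A μ ν)), Sys μ ν E →
  ∀ z z' : ℤ → ℤ → A, On E z → On E z' → ∀ k, (∀ i < 0, z i k = z' i k) → z 0 k ≠ z' 0 k →
    (∃ t < 0, win μ (fun i => z i k) t ∉ Ust E) →
    (∀ i < 0, z i (k + 1) = z' i (k + 1)) ∧ z 0 (k + 1) ≠ z' 0 (k + 1)

/-- **DEV.** The first deviation from left periodicity is the same in all rows.
Here `Dev x b := ∃ δ > 0, (∀ i < b, x (i-δ) = x i) ∧ x (b-δ) ≠ x b`, written out.
Proof.  (D1) If `∀ i < b, x (i-δ) = x i` and `∀ i ≤ b', x (i-δ') = x i` then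
`∀ i < b, x (i-δ') = x i`: `x i = x (i-mδ) = x (i-mδ-δ') = x (i-δ')` for `m` large (all columns
`< b`).  So for two left periods `δ, δ'` of `x` the sets `{b | ∀ i < b, x (i-δ) = x i}` and
`{b | ∀ i < b, x (i-δ') = x i}` are equal, and `b` is a deviation iff `b` is in the set and `b+1`
is not; so the condition `(∀ i < b, x (i-δ') = x i) ∧ x (b-δ') ≠ x b` holds for ONE left period
iff for ALL (conclusion (i)).
(D2) Rows `j`, `j+1` LEP; let `δ` be a common left period (a product).  If row `j` deviates at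
`b`: far to the left `vt w t j = vt w (t-δ) j`; as long as `t < b`, H1 (letters of row `j`) gives
the next one.  So `w (i-δ) (j+1) = w i (j+1)` for `i < b`, `vt w b j = vt w (b-δ) j`, and by H2
`w (b-δ) (j+1) ≠ w b (j+1)`.  Conversely the same with H1 and H2 exchanged.  By FSL all rows are
LEP and by induction on `j` in both directions all rows deviate at `b`, which is (ii). -/
def G_DEV : Prop := ∀ (A : Type) [Finite A] (μ ν : ℕ) (E : Set (Edge A μ ν)), Sys μ ν E →
  (∀ (x : ℤ → A) (b δ δ' b' : ℤ), 0 < δ → 0 < δ' → (∀ i < b, x (i - δ) = x i) →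
    x (b - δ) ≠ x b → (∀ i ≤ b', x (i - δ') = x i) →
    (∀ i < b, x (i - δ') = x i) ∧ x (b - δ') ≠ x b) ∧
  (∀ w : ℤ → ℤ → A, On E w → ∀ b δ : ℤ, 0 < δ → (∀ i < b, w (i - δ) 0 = w i 0) →
    w (b - δ) 0 ≠ w b 0 → ∀ j, ∃ δ' : ℤ, 0 < δ' ∧ (∀ i < b, w (i - δ') j = w i j) ∧
      w (b - δ') j ≠ w b j)

/-- **ALT.** If the agreeing row is left eventually periodic there is a half-plane pair.
Proof.  Row `0` of `z` has left period `δ` for `i ≤ b`; `z' i 0 = z i 0` for `i < 0`, so row `0` of
`z'` has left period `δ` for `i ≤ min b (-1)`.  One of the two rows deviates somewhere: otherwise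
`z (i-δ) 0 = z i 0` and `z' (i-δ) 0 = z' i 0` for all `i` (the set of `b` with
`∀ i < b, x (i-δ) = x i` contains a `b` and, if there is no deviation, with `b` also `b+1`), so
`z 0 0 = z (-δ) 0 = z' (-δ) 0 = z' 0 0`.  Say `y ∈ {z, z'}` deviates at `b` in row `0`; shift the
columns so that `b = 0`.  By DEV (ii) every row `j` of `y` has a left period `δ_j` with
`y (i-δ_j) j = y i j` for `i < 0`, `y (-δ_j) j ≠ y 0 j`.  For `n ≥ δ_j` the number `n!` is a
multiple of `δ_j`, so `y (i-n!) j = y i j` for `i < 0`, hence `n!` is also a left period and by DEV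
(i) `y (-n!) j ≠ y 0 j`.  Let `w'` be a limit (LIM) of the configurations `y (i-n!) j`; then
`w' i j = y i j` for `i < 0` and `w' 0 j ≠ y 0 j` for all `j`.  Take `w = y`. -/
def G_ALT : Prop := ∀ (A : Type) [Finite A] (μ ν : ℕ) (E : Set (Edge A μ ν)), Sys μ ν E →
  ∀ c : ℤ → ℤ → A, On E c → ∀ z z' : ℤ → ℤ → A, Comp c z → Comp c z' →
    (∀ i < 0, z i 0 = z' i 0) → z 0 0 ≠ z' 0 0 → LEP (fun i => z i 0) →
    ∃ w w' : ℤ → ℤ → A, Comp c w ∧ Comp c w' ∧ HalfPair w w'

/-- **NN.** A half-plane pair exists if there is no horizontal period (`ν ≤ μ`).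
Proof.  Take `z, z'` from N1.  Let `P k`: rows `k` of `z`, `z'` agree on `i < 0` and differ at `0`.
`P 0`, `P 1`.  Case A: `P k` for all `k ≥ 0`.  A limit (LIM, alphabet `A × A`) of
`(z i (j+n), z' i (j+n))`, `n → ∞`, is a half-plane pair.  Case B: otherwise there is `k ≥ 0` with
`P k` and not `P (k+1)`; by UP all windows of row `k` at `t < 0` lie in `Ust E`, whose cardinality
is `≤ ν ≤ μ` (H7), so row `k` of `z` is LEP by EVP, and ALT applies to `z i (j+k)`,
`z' i (j+k)`. -/
def G_NN : Prop := ∀ (A : Type) [Finite A] (μ ν : ℕ), ν ≤ μ → ∀ (E : Set (Edge A μ ν)),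
  Sys μ ν E → ∀ c : ℤ → ℤ → A, On E c → ¬ HPer c →
    ∃ w w' : ℤ → ℤ → A, Comp c w ∧ Comp c w' ∧ HalfPair w w'

/-- **REC.** `R` is the only vertex with two outgoing edges.
Proof.  (i) Suppose `vt w t0 j = R` and `vt w t j ≠ R` for all `t < t0`.  By pigeonhole there are
`t1 < t2 < t0` with equal vertices; going right, from equal vertices `≠ R` the edges are equal, so
the vertices at `t1 + k`, `t2 + k` are equal as long as `t2 + k ≤ t0` (all vertices before are not
`R`); at `k = t0 - t2` we get `vt w (t1 + k) j = R` with `t1 + k < t0`.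
(ii) If the path never meets `R` then `vt w t j = vt w t' j` implies equal edges, so equal
vertices at `t+1`, `t'+1`; DET gives the period of the vertices, and equal vertices `≠ R` give
equal edges. -/
def G_REC : Prop := ∀ (A : Type) [Finite A] (μ ν : ℕ) (E : Set (Edge A μ ν)) (R : Vert A μ ν),
  (∀ e ∈ E, ∀ f ∈ E, src e = src f → src e ≠ R → e = f) → ∀ w : ℤ → ℤ → A, On E w → ∀ j,
    (∀ t0, vt μ ν w t0 j = R → ∃ t1 < t0, vt μ ν w t1 j = R) ∧
    ((∀ t, vt μ ν w t j ≠ R) →
      ∀ t, ed μ ν w (t + ((Nat.card (Vert A μ ν)).factorial : ℕ)) j = ed μ ν w t j)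

/-- **BR.** The branching vertex of a half-plane pair.
Proof.  `vt w 0 j = vt w' 0 j` (columns `< 0`) and `ed w 0 j ≠ ed w' 0 j` (letters `w 0 j`).  With
`e = ed w 0 0`, `e' = ed w' 0 0`, `R = vt w 0 0`: by H5 every pair of distinct edges with the same
source is `{e, e'}`; this gives all clauses: the pair `ed w 0 j`, `ed w' 0 j` is `{e, e'}`, its
source is `R`; an edge `f` with source `R`, `f ≠ e`, gives the pair `{f, e} = {e, e'}`, so
`f = e'`.  For the clause on letters: the pair at `j = 1` is `{e, e'}` and its bottom letters are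
`w 0 1`, `w' 0 1`; those of `e`, `e'` are `w 0 0`, `w' 0 0`. -/
def G_BR : Prop := ∀ (A : Type) (μ ν : ℕ) (E : Set (Edge A μ ν)), Sys μ ν E →
  ∀ w w' : ℤ → ℤ → A, On E w → On E w' → HalfPair w w' →
    (∀ j, vt μ ν w 0 j = vt μ ν w 0 0 ∧ vt μ ν w' 0 j = vt μ ν w 0 0) ∧
    (∀ e ∈ E, ∀ f ∈ E, src e = src f → src e ≠ vt μ ν w 0 0 → e = f) ∧
    (∀ f ∈ E, src f = vt μ ν w 0 0 → f = ed μ ν w 0 0 ∨ f = ed μ ν w' 0 0) ∧
    ed μ ν w 0 0 ≠ ed μ ν w' 0 0 ∧
    ((w 0 1 = w 0 0 ∧ w' 0 1 = w' 0 0) ∨ (w 0 1 = w' 0 0 ∧ w' 0 1 = w 0 0))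

/-- **GT.** `ν < μ` is impossible.
Proof.  Use BR (`R`, `e`, `e'`) and REC.
(A) `vt w (-r) j` does not depend on `j`, for every `r : ℕ`: `r = 0` by BR.  Step: the edge
`ed w (-r-1) j` has target `vt w (-r) j` and oldest top letter `w (-r-1-ν) (j+1)`, which is the
letter with index `ν < μ` of the bottom word of `vt w (-r) (j+1)`, so independent of `j`; by H4 the
edge is independent of `j`, so is its source.  Hence `w i j = w i 0` for `i < 0` (a letter of the
edge); the same for `w'` (it agrees with `w` there).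
(B) By REC there is `t1 < 0` with `vt w t1 0 = R`; the edge `ed w t1 0` is `e` or `e'` and its
newest letters are equal (`w t1 0 = w t1 1` by (A)).  With the last clause of BR:
`w 0 1 = w 0 0` and `w' 0 1 = w' 0 0` (in the second case of the clause `e` has the letters
`w 0 0`, `w' 0 0` and `e'` has `w' 0 0`, `w 0 0`, which are different).
(C) All rows of `w` are equal: by induction on `t ≥ 0`, rows equal on `i < t` (so `vt w t j` is
independent of `j`, note `vt w t j` uses rows `j`, `j+1`): if `vt w t j = R` then `ed w t j` is `e`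
or `e'`, so `w t (j+1) = w t j`; otherwise all `ed w t j` are equal, so `w t j` is independent of
`j`.  The same for `w'`.
(D) For `w`: if `vt w (t+1) 0 = vt w (t'+1) 0` then `w (t-ν) 1 = w (t-ν) 0 = w (t'-ν) 0 =
w (t'-ν) 1` (index `ν < μ` of the bottom word), so by H4 the edges at `t`, `t'` are equal and
`vt w t 0 = vt w t' 0`.  By DET (second part) `w (t+L) 0 = w t 0` for all `t`, with
`L = (Nat.card (Vert A μ ν)).factorial` (`μ > 0`).  The same for `w'`.  So
`w 0 0 = w (-L) 0 = w' (-L) 0 = w' 0 0`, a contradiction. -/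
def G_GT : Prop := ∀ (A : Type) [Finite A] (μ ν : ℕ), ν < μ → ∀ (E : Set (Edge A μ ν)),
  Sys μ ν E → ∀ w w' : ℤ → ℤ → A, On E w → On E w' → ¬ HalfPair w w'

/-- **EQI.** `μ = ν`, first case of BR.
Proof.  Let `R`, `e`, `e'` be as in BR.
(A) `w i j = w i 0` for all `i ≥ -μ` and all `j`: for `-μ ≤ i ≤ -1`, `w i j` is a letter of
`vt w 0 j = R`, bottom word, so independent of `j`.  For `t ≥ 0` by induction: `vt w t j` is
independent of `j`; if it is `R` then `ed w t j ∈ {e, e'}` has equal newest letters (case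
hypothesis), so `w t (j+1) = w t j`; if not, all `ed w t j` are equal, so `w t j` is independent of
`j`.  The same for `w'`.
(B) Let `H = {ed w t 0 | t ≥ 0} ∪ {ed w' t 0 | t ≥ 0}`.  By (A) `f.1 = f.2` for `f ∈ H`.  If
`f ∈ H`, `g ∈ E`, `src g = tgt f` then `g ∈ H`: `f = ed w t 0`, `src g = vt w (t+1) 0`; if this is
`R` then `g ∈ {e, e'} ⊆ H`, otherwise `g = ed w (t+1) 0`.  The same for `w'`.
(C) If the path `t ↦ vt c t j` visits `R` then, by REC (i), at arbitrarily small `t`, and from a
visit on all edges lie in `H`; so all `ed c t j ∈ H` and `c t j = c t (j+1)` for all `t`.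
If it never visits `R` then by REC (ii) both rows `j`, `j+1` of `c` have the period
`L = (Nat.card (Vert A μ μ)).factorial`.
(D) If all rows have the period `L` then `Per c`.  Otherwise row `j0` has not; then the paths `j0`
and `j0 - 1` visit `R`, so rows `j0+1 = j0 = j0-1`, again without period `L`, and by induction all
rows are equal: `Per c` with the vector `(0,1)`. -/
def G_EQI : Prop := ∀ (A : Type) [Finite A] (μ : ℕ) (E : Set (Edge A μ μ)),
  Sys μ μ E → ∀ w w' : ℤ → ℤ → A, On E w → On E w' → HalfPair w w' →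
    w 0 1 = w 0 0 → w' 0 1 = w' 0 0 → ∀ c : ℤ → ℤ → A, On E c → Per c

/-- **EQH.** `μ = ν`, second case of BR: the set `H`.
Proof.  Let `R`, `e`, `e'` be as in BR; `R = (r, r)`: `w (-1-l) (j+1)` is the letter `l` of the top
word of `vt w 0 j = R` and of the bottom word of `vt w 0 (j+1) = R`.  Rows of `w` are equal on
`[-μ, -1]`.  The newest letters of `e` are `(w 0 0, w' 0 0)`, those of `e'` are
`(w' 0 0, w 0 0)` (case hypothesis).
(A) `w i (j+2) = w i j` for `i ≥ -μ`, all `j`; induction on `t`: assume it for `-μ ≤ i < t`,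
`t ≥ 0`.  Then `vt w t (j+1)` is `vt w t j` with the two words exchanged, so (as `R = (r,r)`)
`vt w t j = R` iff `vt w t (j+1) = R`.  If they are `R` then `ed w t j, ed w t (j+1) ∈ {e, e'}`, so
`w t (j+1)` is the other one of the two letters than `w t j`, and `w t (j+2)` the other one than
`w t (j+1)`, so `w t (j+2) = w t j`.  If not, `vt w t (j+2) = vt w t j ≠ R`, so
`ed w t (j+2) = ed w t j`.  The same for `w'`.
(B) Let `H = {ed w t j | t ≥ 0, j} ∪ {ed w' t j | t ≥ 0, j} ⊆ E`.  By (A) `ed w t (j+1)` is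
`ed w t j` with the two words exchanged, so `H` is closed under `Prod.swap`.  If `f ∈ H`, `g ∈ E`,
`src g = tgt f` then `g ∈ H` (as in EQI (B), with `e = ed w 0 0`, `e' = ed w' 0 0`).
(C) If the path `t ↦ vt c t j` visits `R` then (REC (i)) all `ed c t j ∈ H`, so
`Prod.swap (ed c t j) ∈ E` for all `t`; if not, REC (ii) gives the period
`(Nat.card (Vert A μ μ)).factorial` of rows `j` and `j+1`. -/
def G_EQH : Prop := ∀ (A : Type) [Finite A] (μ : ℕ) (E : Set (Edge A μ μ)),
  Sys μ μ E → ∀ w w' : ℤ → ℤ → A, On E w → On E w' → HalfPair w w' →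
    w 0 1 = w' 0 0 → w' 0 1 = w 0 0 → ∀ c : ℤ → ℤ → A, On E c → ∀ j,
      (∀ t, Prod.swap (ed μ μ c t j) ∈ E) ∨
      (∀ t, c (t + ((Nat.card (Vert A μ μ)).factorial : ℕ)) j = c t j ∧
        c (t + ((Nat.card (Vert A μ μ)).factorial : ℕ)) (j + 1) = c t (j + 1))

/-- **EQS.** `μ = ν`: from the swapped edges to a vertical period `2`.
Proof.  Let `L1` be from U1 (for `A`, `μ`), `L2` from U2 for `L1`, `L = L1 * L2 * L3`.  Say
`P j`: row `j` of `c` does not have the period `L`.  If no `P j` holds, `HPer c`, so `Per c`.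
Let `P j`.
(1) Both paths `j` and `j-1` satisfy the first alternative (the second gives the period `L3` of
row `j`).
(2) Row `j` has a window not in `Ust E`, otherwise it has the period `L1` by U1
(`(Ust E).ncard ≤ μ` by H7).  Row `j+1` has a window not in `Ust E`, otherwise it has the period
`L1`, and row `j` has the period `L2` by U2.
(3) (Lifting) If `f : ℤ → Edge A μ μ` is a path of edges in `E` whose bottom words are the windows
of row `k` of `c` (i.e. there is a configuration `u` with `u i 0 = c i k` and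
`ed u t 0 ∈ E` for all `t`), and row `k` has a window not in `Ust E`, then `u i 1 = c i (k+1)` for
all `i`: at that window the edges are equal; forwards by H1, backwards by H3.
(4) Up: `u i 0 = c i (j+1)`, `u i 1 = c i j`: its edges are `Prod.swap (ed c t j) ∈ E`; so
`c i (j+2) = c i j`.  Down: `u i 0 = c i j`, `u i 1 = c i (j-1)`, edges
`Prod.swap (ed c t (j-1))`; so `c i (j-1) = c i (j+1)`.
(5) `P (j+1)`: if row `j+1` has the period `L`, then at its window not in `Ust E` (at `t1`) the
edges `Prod.swap (ed c t1 j)` and `Prod.swap (ed c (t1+L) j)` are over the same bottom word, so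
equal, and by H1, H3 (bottom letters of period `L`) this holds for all `t`; so row `j` has the
period `L`, a contradiction.
(6) `P (j-1)` by `c i (j-1) = c i (j+1)` and (5).  So `P j` for all `j` and `c i (j+2) = c i j` for
all `i, j`. -/
def G_EQS : Prop := ∀ (A : Type) [Finite A] (μ L3 : ℕ), 0 < L3 → ∀ (E : Set (Edge A μ μ)),
  Sys μ μ E → ∀ c : ℤ → ℤ → A, On E c →
    (∀ j, (∀ t, Prod.swap (ed μ μ c t j) ∈ E) ∨
      (∀ t, c (t + L3) j = c t j ∧ c (t + L3) (j + 1) = c t (j + 1))) → Per c

/-- **MAIN.** Assembly of NN, GT, BR, EQI, EQH, EQS.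
Proof.  If `HPer c` then `Per c`.  Otherwise NN gives a half-plane pair, `On E` by `Comp.on`.
`ν < μ`: contradiction by GT.  `ν = μ`: BR and its last clause: EQI, or EQH and EQS. -/
def G_MAIN : Prop := ∀ (A : Type) [Finite A] (μ ν : ℕ), ν ≤ μ → ∀ (E : Set (Edge A μ ν)),
  Sys μ ν E → ∀ c : ℤ → ℤ → A, On E c → Per c

/-- **SYS.** The edge set of a minimal window satisfies `Sys`.
Proof.  `E = range (fun x : ℤ × ℤ => ed μ ν c x.1 x.2)`, `E.ncard = N c 0 (μ+1) (ν+1)` (shift the
column by one), so `E.ncard ≤ μ+ν+2`.  Use CNT for the maps from `E` to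
H1: `e ↦ (e.1, tail of e.2)`: image `range (pat c (-1) (μ+1) ν)`, at least `μ+ν+2` elements;
H2: `e ↦ (tail of e.1, e.2)`: image `range (pat c 1 μ (ν+1))`;
H3: `e ↦ (e.1, init of e.2)`: image `range (pat c 0 (μ+1) ν)`;
H4: `e ↦ (init of e.1, e.2)`: image `range (pat c 0 μ (ν+1))`  (injective by CNT (a));
H5: `src`: image `range (pat c 0 μ ν)`, at least `μ+ν+1` elements, CNT (b);
H7: `e ↦ e.1`: image has `N c 0 (μ+1) 0 ≥ μ+2` elements, CNT (c) with `k = ν`. -/
def G_SYS : Prop := ∀ (A : Type) [Finite A] (μ ν : ℕ) (c : ℤ → ℤ → A),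
  N c 0 (μ + 1) (ν + 1) ≤ μ + ν + 2 →
  (∀ (s : ℤ) (a b : ℕ), a + b < μ + ν + 2 → a + b + 1 ≤ N c s a b) →
    Sys μ ν (range (fun x : ℤ × ℤ => ed μ ν c x.1 x.2))

/-- **SH.** Shear, reflection, windows in one row.
Proof.  (i) `pat c1 s' a b (i, j) = pat c (s + s') a b (i + s j, j)` for `c1 i j = c (i + s j) j`,
and `(i, j) ↦ (i + s j, j)` is a bijection.  (ii) `pat c2 s' a b (i, j)` is
`pat c (-s') b a (i + s', -j-1)` with the words exchanged, for `c2 i j = c i (-j)`.
(iii), (iv): a period `(p, q)` of `c1` gives the period `(p + s q, q)` of `c`; of `c2`: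
`(p, -q)`.
(v) Window in one row: `N c s (a+1) 0 ≤ a+1` and `N c s a 0 ≥ a+1`: the restriction from words of
length `a+1` in rows to words of length `a` (drop the oldest letter, index `a`) is onto between
finite sets with `≤ a+1` and `≥ a+1` elements, so injective: the word of length `a` at column `t`
of row `j` determines the one of length `a+1`, so (dropping the newest letter) the word of length
`a` at `t-1`, and, for the letter: use that the words of length `a+1` are determined by those of
length `a`.  DET (second part) for each row: period `(Nat.card (Fin a → A)).factorial`, so `HPer`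
and `Per`.  (vi) the same with `N c s 0 (b+1)`, `N c s 0 b`. -/
def G_SH : Prop := ∀ (A : Type) [Finite A] (c : ℤ → ℤ → A) (s : ℤ),
  (∀ (s' : ℤ) (a b : ℕ), N (fun i j => c (i + s * j) j) s' a b = N c (s + s') a b) ∧
  (∀ (s' : ℤ) (a b : ℕ), N (fun i j => c i (-j)) s' a b = N c (-s') b a) ∧
  (Per (fun i j => c (i + s * j) j) → Per c) ∧ (Per (fun i j => c i (-j)) → Per c) ∧
  (∀ a : ℕ, N c s (a + 1) 0 ≤ a + 1 → a + 1 ≤ N c s a 0 → Per c) ∧
  (∀ b : ℕ, N c s 0 (b + 1) ≤ b + 1 → b + 1 ≤ N c s 0 b → Per c)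

/-- **RED1.** Assembly of SH, SYS, MAIN.
Proof.  Among all `(s, a, b)` with `1 ≤ a + b` and `N c s a b ≤ a + b` take one with `a + b`
minimal.  Then `a' + b' + 1 ≤ N c s' a' b'` whenever `a' + b' < a + b` (for `a' + b' = 0` the
number is `1`: one pattern).  If `b = 0` or `a = 0`: SH (v), (vi).  Otherwise the shear
`c1 i j = c (i + s j) j` has `N c1 0 a b ≤ a + b` and the same minimality (SH (i)); if `a < b`
reflect it (SH (ii)), so one may assume `b ≤ a`.  With `μ = a-1`, `ν = b-1` SYS and MAIN give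
`Per` of the new configuration, so `Per c` by SH (iii), (iv). -/
def G_RED1 : Prop := ∀ (A : Type) [Finite A] (c : ℤ → ℤ → A) (s : ℤ) (a b : ℕ), 1 ≤ a + b →
  N c s a b ≤ a + b → Per c

/-- **RED2.** Geometry.
Proof.  `D` is not empty (otherwise there is exactly one pattern, `1 ≤ 0`).  Let `m a + n b = 1`
(`hab`), `v = (b, -a)`, `u = (m, n)`: then `(i, j) ↦ i v + j u` is a bijection of `ℤ²` and
`i v + j u` lies on the line `a x + b y = j`.  Let `c' i j = c (i v + j u)`.  The sets
`D0 = {i | i v + k u ∈ D}`, `D1 = {i | i v + (k+1) u ∈ D}` are finite and, by convexity of `S`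
and `hD`, order-connected, so intervals: `D0 = [α0 - a', α0)`, `D1 = [α1 - b', α1)` with
`a' + b' = D.card`.  The pattern of `c` at `t = i v + j u` on `D` corresponds (bijection of `D` with
`Fin a' ⊕ Fin b'`) to `pat c' (α1 - α0) a' b' (i + α0, j + k)`, so
`N c' (α1 - α0) a' b' ≤ D.card = a' + b'`.  RED1 gives a period `(p, q)` of `c'`, so the period
`p v + q u ≠ 0` of `c`. -/
def G_RED2 : Prop := ∀ (A : Type) [Finite A] (D : Finset (ℤ × ℤ)) (S : Set (ℝ × ℝ)),
  Convex ℝ S → (∀ z : ℤ × ℤ, z ∈ D ↔ ((z.1 : ℝ), (z.2 : ℝ)) ∈ S) →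
  ∀ a b k : ℤ, IsCoprime a b → (∀ z ∈ D, a * z.1 + b * z.2 = k ∨ a * z.1 + b * z.2 = k + 1) →
  ∀ c : ℤ × ℤ → A,
    (Set.range (fun t : ℤ × ℤ => fun d : D => c (t + (d : ℤ × ℤ)))).ncard ≤ D.card →
    ∃ p : ℤ × ℤ, p ≠ 0 ∧ ∀ x : ℤ × ℤ, c (x + p) = c x

end Pool.Agent.Helper28.NV
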